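import Mathlib

/-!
The snooker domination game on the grid `P_2 □ P_7` is won by the first player.
-/

namespace Pool.Agent.Results.MP_a0a898_co.TwoBySeven

/-- `D` is dominating: every vertex lies in `D` or has a neighbour in `D`. -/
def Dom {V : Type*} (G : SimpleGraph V) (D : Set V) : Prop :=
  ∀ v, v ∈ D ∨ ∃ u ∈ D, G.Adj u v

/-- The player to move, with `D` the set of vertices picked so far, has a winning strategy:
pick an unpicked vertex that makes the set dominating, or pick one that does not, such that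
every pick of the opponent leaves a non-dominating set from which the player again wins. -/
inductive Win {V : Type*} (G : SimpleGraph V) : Set V → Prop
  | fin (D v) : v ∉ D → Dom G (insert v D) → Win G D
  | step (D v) : v ∉ D → ¬ Dom G (insert v D) →
      (∀ u, u ∉ insert v D → ¬ Dom G (insert u (insert v D))) →
      (∀ u, u ∉ insert v D → Win G (insert u (insert v D))) → Win G D

abbrev Gr : SimpleGraph (Fin 2 × Fin 7) :=
  SimpleGraph.boxProd (SimpleGraph.pathGraph 2) (SimpleGraph.pathGraph 7)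

def L : List ℕ :=
  [2, 26, 35, 55, 59, 70, 94, 110, 162, 167, 186, 290, 310, 422, 439, 602, 614, 675, 803, 1090,
   1114, 1630, 2091, 2114, 2202, 2235, 2466, 2979, 4123, 4130, 4150, 5190, 6242, 6299, 8278,
   8706, 8746, 8814, 9794, 10758, 10818, 11790, 12406, 12834, 13894, 14946]

def NB : List (List ℕ) :=
  [[0, 1, 7], [0, 1, 2, 8], [1, 2, 3, 9], [2, 3, 4, 10], [3, 4, 5, 11], [4, 5, 6, 12], [5, 6,
   13], [0, 7, 8], [1, 7, 8, 9], [2, 8, 9, 10], [3, 9, 10, 11], [4, 10, 11, 12], [5, 11, 12,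
   13], [6, 12, 13]]

def idx (x : Fin 2 × Fin 7) : ℕ := 7 * x.1.val + x.2.val

def R (D : Set (Fin 2 × Fin 7)) (c : ℕ) : Prop := ∀ x, c.testBit (idx x) = true ↔ x ∈ D

def dm (c : ℕ) : Bool := NB.all fun l => l.any fun j => c.testBit j

def chk (c : ℕ) : Bool := Nat.blt c 16384 && !dm c && (List.range 14).all fun i =>
  c.testBit i || (!dm (c ||| 1 <<< i) && (List.range 14).any fun j =>
    !(c ||| 1 <<< i).testBit j && (dm (c ||| 1 <<< i ||| 1 <<< j) ||
      (Nat.blt c (c ||| 1 <<< i ||| 1 <<< j) && L.any (Nat.beq (c ||| 1 <<< i ||| 1 <<< j)))))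

lemma closure : L.all chk = true := by decide +kernel

def AV : List (Fin 2 × Fin 7) := (List.finRange 2).product (List.finRange 7)

instance : DecidableRel Gr.Adj := fun a b =>
  decidable_of_iff (((a.1.val + 1 = b.1.val ∨ b.1.val + 1 = a.1.val) ∧ a.2 = b.2) ∨
    ((a.2.val + 1 = b.2.val ∨ b.2.val + 1 = a.2.val) ∧ a.1 = b.1))
    (by simp [SimpleGraph.boxProd_adj, SimpleGraph.pathGraph_adj])

lemma dm_iff {D c} (h : R D c) : dm c = true ↔ Dom Gr D := by
  have hA : ∀ x, x ∈ AV := by decide +kernel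
  have e : NB = AV.map fun v => (AV.filter fun u => u = v ∨ Gr.Adj u v).map idx := by
    decide +kernel
  unfold R at h
  simp only [dm, e, List.all_map, List.any_map, List.all_eq_true, List.any_eq_true, hA,
    List.mem_filter, true_and, decide_eq_true_eq, Function.comp, h, Dom, true_implies]
  refine forall_congr' fun v => ⟨?_, ?_⟩
  · rintro ⟨u, rfl | h1, h2⟩
    exacts [.inl h2, .inr ⟨u, h2, h1⟩]
  · rintro (h1 | ⟨u, h1, h2⟩)
    exacts [⟨v, .inl rfl, h1⟩, ⟨u, .inr h2, h1⟩]

lemma R_ins {D c} (x) (h : R D c) : R (insert x D) (c ||| 1 <<< idx x) := by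
  intro y
  have hi : ∀ x y, idx x = idx y ↔ y = x := by decide +kernel
  rw [Nat.testBit_or, Nat.one_shiftLeft, Nat.testBit_two_pow, Bool.or_eq_true, h y,
    decide_eq_true_eq, hi, Set.mem_insert_iff, or_comm]

lemma win (k : ℕ) : ∀ D, ∀ c ∈ L, R D c → 16384 ≤ c + k → ¬ Dom Gr D ∧ ∀ u, u ∉ D →
    ¬ Dom Gr (insert u D) ∧ Win Gr (insert u D) := by
  have hI : ∀ d, idx d < 14 := by decide +kernel
  have hJ : ∀ j < 14, ∃ d, idx d = j := by decide +kernel
  have hc := List.all_eq_true.1 closure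
  simp only [chk, Bool.and_eq_true, Nat.blt_eq, List.all_eq_true, List.mem_range,
    Bool.or_eq_true, List.any_eq_true, Nat.beq_eq, Bool.not_eq_true', exists_eq_right'] at hc
  induction k with
  | zero => intro s c hl _ h; have := (hc c hl).1.1; omega
  | succ k ih =>
    intro D c hl hR h
    refine ⟨by rw [← dm_iff hR, (hc c hl).1.2]; decide, fun u hu => ?_⟩
    have hR1 := R_ins u hR
    obtain h0 | ⟨h1, j, hj, h2, h3⟩ := (hc c hl).2 _ (hI u)
    · exact absurd ((hR u).1 h0) hu
    obtain ⟨v, rfl⟩ := hJ j hj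
    have hv : v ∉ insert u D := by rw [← hR1 v, h2]; decide
    have hR2 := R_ins v hR1
    refine ⟨by rw [← dm_iff hR1, h1]; decide, ?_⟩
    rcases h3 with h3 | ⟨h3, h4⟩
    · exact .fin _ _ hv ((dm_iff hR2).1 h3)
    · have := ih _ _ h4 hR2 (by omega)
      exact .step _ _ hv this.1 (fun d hd => (this.2 d hd).1) (fun d hd => (this.2 d hd).2)

/-- The first player wins the snooker domination game on `P_2 □ P_7` (14 vertices). -/
theorem result :
    Win (SimpleGraph.boxProd (SimpleGraph.pathGraph 2) (SimpleGraph.pathGraph 7)) ∅ := by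
  have h0 : R ∅ 0 := fun x => by simp
  have := win 16384 _ 2 (by decide) (R_ins (0, 1) h0) (by omega)
  exact .step _ (0, 1) (by simp) this.1 (fun d hd => (this.2 d hd).1)
    (fun d hd => (this.2 d hd).2)

end Pool.Agent.Results.MP_a0a898_co.TwoBySeven
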